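import Pool.Agent.KS6_21.BurnsideThree

/-!
Explicit two-generated subgroups of free Burnside groups, of every exponent divisible by three (odd
or even) and every rank at least two, which are not free products of two cyclic groups modulo
`N`-th powers, whatever `N` is.
-/

set_option autoImplicit false

namespace Pool.Agent.Results.MP_334071_al.ExplicitSubgroups

open Pool.Agent.KS6_21.BurnsideTwo

universe u

/-- First part: let `n ≥ 1` be divisible by three (odd or even), let `x`, `y` be two different
elements of a set `X` and `a = x ^ (n / 3)`, `b = y ^ (n / 3)` in the free Burnside group `B X n` of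
exponent `n` on `X`. The subgroup of `B X n` generated by `a b⁻¹` and `b⁻¹ a` is not isomorphic to
the free product of two cyclic groups modulo all `N`-th powers, whatever the exponent `N ≥ 0` and
the orders `r, s ≥ 0` are.  Second part: the negative answer to Q1. -/
theorem result :
    (∀ n : ℕ, n ≠ 0 → 3 ∣ n → ∀ (X : Type u) (x y : X), x ≠ y → ∀ N r s : ℕ,
      IsEmpty (↥(Subgroup.closure
        ({(QuotientGroup.mk (FreeGroup.of x) : B X n) ^ (n / 3) *
            ((QuotientGroup.mk (FreeGroup.of y) : B X n) ^ (n / 3))⁻¹,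
          ((QuotientGroup.mk (FreeGroup.of y) : B X n) ^ (n / 3))⁻¹ *
            (QuotientGroup.mk (FreeGroup.of x) : B X n) ^ (n / 3)} : Set (B X n))) ≃*
        P N r s)) ∧
    ¬ (∃ N : ℕ, ∀ n : ℕ, Odd n → N ≤ n → ∀ m : ℕ, ∀ x y : B (Fin m) n,
      ∃ r s : ℕ, Nonempty (↥(Subgroup.closure ({x, y} : Set (B (Fin m) n))) ≃* P n r s)) := by
  refine ⟨fun n hn h3 X x y hxy N r s => ?_, ?_⟩
  · exact Pool.Agent.KS6_21.BurnsideThree.main_explicit hn h3 x y hxy N r s
  · rintro ⟨N, hN⟩
    have hodd : Odd (3 * (2 * N + 1)) := ⟨3 * N + 1, by ring⟩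
    obtain ⟨r, s, ⟨φ⟩⟩ := hN (3 * (2 * N + 1)) hodd (by omega) 2 _ _
    exact (Pool.Agent.KS6_21.BurnsideThree.main_explicit (by omega) ⟨2 * N + 1, rfl⟩
      (0 : Fin 2) 1 (by decide) _ r s).false φ

end Pool.Agent.Results.MP_334071_al.ExplicitSubgroups
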